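import Mathlib

namespace Pool.Agent.H90KD

open TensorProduct

theorem basis_lin {L : Type} [Field L] [CharZero L] (A : Subring L) {B : Type} (b : B → L)
    (hb : IsTranscendenceBasis A b) :
    LinearIndependent L (fun i => KaehlerDifferential.D A L (b i)) := by
  classical
  letI : Algebra (MvPolynomial B A) L := (MvPolynomial.aeval b : MvPolynomial B A →ₐ[A] L).toRingHom.toAlgebra
  have hmap : ∀ p : MvPolynomial B A, algebraMap (MvPolynomial B A) L p = MvPolynomial.aeval b p :=
    fun p => rfl
  have : IsScalarTower A (MvPolynomial B A) L := by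
    refine IsScalarTower.of_algebraMap_eq (fun a => ?_)
    rw [hmap, MvPolynomial.algebraMap_eq, MvPolynomial.aeval_C]
  have hinj : Function.Injective (algebraMap (MvPolynomial B A) L) := hb.1
  have : FaithfulSMul (MvPolynomial B A) L := (faithfulSMul_iff_algebraMap_injective _ _).2 hinj
  letI : Algebra (FractionRing (MvPolynomial B A)) L := FractionRing.liftAlgebra (MvPolynomial B A) L
  have : IsScalarTower (MvPolynomial B A) (FractionRing (MvPolynomial B A)) L :=
    FractionRing.isScalarTower_liftAlgebra (MvPolynomial B A) L
  have h1 : Algebra.IsAlgebraic (Algebra.adjoin A (Set.range b)) L := hb.isAlgebraic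
  have halg : Algebra.IsAlgebraic (MvPolynomial B A) L := by
    refine Algebra.IsAlgebraic.of_ringHom_of_comp_eq
      (hb.1.aevalEquiv : MvPolynomial B A ≃ₐ[A] Algebra.adjoin A (Set.range b)).toRingEquiv.toRingHom
      (RingHom.id L) ?_ Function.injective_id ?_
    · exact (hb.1.aevalEquiv).surjective
    · refine RingHom.ext (fun p => ?_)
      exact hb.1.algebraMap_aevalEquiv p
  have : Algebra.IsAlgebraic (FractionRing (MvPolynomial B A)) L :=
    Algebra.IsAlgebraic.extendScalars (R := MvPolynomial B A)
      (IsFractionRing.injective (MvPolynomial B A) (FractionRing (MvPolynomial B A)))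
  have : CharZero (FractionRing (MvPolynomial B A)) :=
    (RingHom.charZero_iff (algebraMap (FractionRing (MvPolynomial B A)) L).injective).2 inferInstance
  have : Algebra.IsSeparable (FractionRing (MvPolynomial B A)) L := inferInstance
  have : Algebra.FormallyEtale (FractionRing (MvPolynomial B A)) L :=
    Algebra.FormallyEtale.of_isSeparable _ _
  have : Algebra.FormallyEtale (MvPolynomial B A) (FractionRing (MvPolynomial B A)) :=
    Algebra.FormallyEtale.of_isLocalization (nonZeroDivisors (MvPolynomial B A))
  have : Algebra.FormallyEtale (MvPolynomial B A) L :=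
    Algebra.FormallyEtale.comp _ (FractionRing (MvPolynomial B A)) _
  let e := KaehlerDifferential.tensorKaehlerEquivOfFormallyEtale A (MvPolynomial B A) L
  let bs := (KaehlerDifferential.mvPolynomialBasis A B).baseChange L
  have hB : ∀ i, (bs.map e) i = KaehlerDifferential.D A L (b i) := by
    intro i
    rw [Module.Basis.map_apply, Module.Basis.baseChange_apply,
      KaehlerDifferential.mvPolynomialBasis_apply]
    have h2 := KaehlerDifferential.tensorKaehlerEquivOfFormallyEtale_symm_D_algebraMap A
      (MvPolynomial B A) L (MvPolynomial.X i)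
    rw [LinearEquiv.symm_apply_eq] at h2
    rw [← h2, hmap, MvPolynomial.aeval_X]
  have h3 := (bs.map e).linearIndependent
  have h4 : (⇑(bs.map e)) = fun i => KaehlerDifferential.D A L (b i) := funext hB
  rwa [h4] at h3

/-- Package A. -/
theorem lin_of_alg {L : Type} [Field L] [CharZero L] (A : Subring L) {ι : Type} [Finite ι]
    (x : ι → L) (h : AlgebraicIndependent A x) :
    LinearIndependent L (fun i => KaehlerDifferential.D A L (x i)) := by
  have hinj : Function.Injective x := h.injective
  have hr : AlgebraicIndepOn A id (Set.range x) := AlgebraicIndependent.to_subtype_range h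
  obtain ⟨t, ht, hb⟩ := exists_isTranscendenceBasis_superset hr
  have h1 := basis_lin A ((↑) : t → L) hb
  have h2 := h1.comp (fun i : ι => (⟨x i, ht ⟨i, rfl⟩⟩ : t))
    (fun i j hij => hinj (congrArg Subtype.val hij))
  exact h2

end Pool.Agent.H90KD
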