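import Mathlib

namespace Pool.Agent.H90KD

open MvPolynomial

theorem D_aeval {L : Type} [Field L] (A : Subring L) {ι : Type} [Fintype ι]
    (x : ι → L) (p : MvPolynomial ι A) :
    KaehlerDifferential.D A L (aeval x p) =
      ∑ i, aeval x (pderiv i p) • KaehlerDifferential.D A L (x i) := by
  classical
  induction p using MvPolynomial.induction_on with
  | C a =>
    simp only [aeval_C, Derivation.map_algebraMap, pderiv_C, map_zero, zero_smul,
      Finset.sum_const_zero]
  | add p q hp hq =>
    simp only [map_add, add_smul, Finset.sum_add_distrib, hp, hq]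
  | mul_X p j hp =>
    have h1 : ∀ i, aeval x (pderiv i (p * X j)) • KaehlerDifferential.D A L (x i) =
        x j • (aeval x (pderiv i p) • KaehlerDifferential.D A L (x i)) +
        (if i = j then aeval x p • KaehlerDifferential.D A L (x j) else 0) := by
      intro i
      rw [pderiv_mul, map_add, map_mul, map_mul, aeval_X, add_smul, pderiv_X]
      congr 1
      · rw [mul_comm, mul_smul]
      · by_cases hij : i = j
        · subst hij
          simp
        · rw [if_neg hij, Pi.single_eq_of_ne (fun h => hij h.symm)]
          simp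
    simp only [h1]
    rw [Finset.sum_add_distrib, ← Finset.smul_sum, ← hp, map_mul, aeval_X, Derivation.leibniz]
    simp [add_comm]

theorem zero_of_pderiv {A : Type} [CommRing A] [IsDomain A] [CharZero A] {ι : Type}
    (p : MvPolynomial ι A) (h : ∀ i, pderiv i p = 0) : p = C (coeff 0 p) := by
  classical
  refine MvPolynomial.ext _ _ (fun m => ?_)
  rw [coeff_C]
  by_cases hm : 0 = m
  · rw [if_pos hm, hm]
  · rw [if_neg hm]
    have hm' : m ≠ 0 := fun h => hm h.symm
    obtain ⟨i, hi⟩ := Finsupp.ne_iff.1 hm'
    rw [Finsupp.zero_apply] at hi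
    have h1 := congrArg (coeff (m - Finsupp.single i 1)) (h i)
    rw [coeff_pderiv, coeff_zero] at h1
    have h2 : m - Finsupp.single i 1 + Finsupp.single i 1 = m :=
      tsub_add_cancel_of_le (Finsupp.single_le_iff.2 (by omega))
    rw [h2] at h1
    rcases mul_eq_zero.1 h1 with h3 | h3
    · exact h3
    · exfalso
      have h4 : (((m - Finsupp.single i 1 : ι →₀ ℕ) i + 1 : ℕ) : A) = 0 := by
        rw [Nat.cast_add, Nat.cast_one]
        exact h3
      exact Nat.succ_ne_zero _ (Nat.cast_eq_zero.1 h4)

theorem aux {L : Type} [Field L] [CharZero L] (A : Subring L) {ι : Type} [Fintype ι]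
    (x : ι → L) (h : LinearIndependent L (fun i => KaehlerDifferential.D A L (x i))) (n : ℕ) :
    ∀ p : MvPolynomial ι A, (∀ m, coeff m p ≠ 0 → ∑ i, m i ≤ n) → aeval x p = 0 → p = 0 := by
  classical
  haveI : CharZero A := (RingHom.charZero_iff (ϕ := (algebraMap A L : A →+* L))
    (Subtype.val_injective)).2 inferInstance
  induction n with
  | zero =>
    intro p hp hx
    have h1 : p = C (coeff 0 p) := by
      refine MvPolynomial.ext _ _ (fun m => ?_)
      rw [coeff_C]
      by_cases hm : 0 = m
      · rw [if_pos hm, hm]
      · rw [if_neg hm]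
        by_contra h2
        have h3 := hp m h2
        apply hm
        ext i
        have h4 : m i ≤ ∑ i, m i := Finset.single_le_sum (fun _ _ => Nat.zero_le _) (Finset.mem_univ i)
        rw [Finsupp.zero_apply]
        omega
    rw [h1, aeval_C] at hx
    have h2 : coeff 0 p = 0 := Subtype.val_injective hx
    rw [h1, h2, C_0]
  | succ n ih =>
    intro p hp hx
    have h1 := D_aeval A x p
    rw [hx, map_zero] at h1
    have h2 : ∀ i, aeval x (pderiv i p) = 0 :=
      (Fintype.linearIndependent_iff.1 h) (fun i => aeval x (pderiv i p)) h1.symm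
    have h3 : ∀ i, pderiv i p = 0 := by
      intro i
      refine ih _ ?_ (h2 i)
      intro m hm
      rw [coeff_pderiv] at hm
      have h4 := hp _ (left_ne_zero_of_mul hm)
      have h5 : ∑ j, (m + Finsupp.single i 1 : ι →₀ ℕ) j = ∑ j, m j + 1 := by
        simp only [Finsupp.add_apply]
        rw [Finset.sum_add_distrib]
        congr 1
        rw [Finset.sum_eq_single i]
        · simp
        · intro j _ hj
          rw [Finsupp.single_eq_of_ne (by first | exact hj | exact hj.symm)]
        · intro hi; exact absurd (Finset.mem_univ i) hi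
      omega
    have h6 := zero_of_pderiv p h3
    rw [h6, aeval_C] at hx
    have h7 : coeff 0 p = 0 := Subtype.val_injective hx
    rw [h6, h7, C_0]

/-- Package B. -/
theorem alg_of_lin {L : Type} [Field L] [CharZero L] (A : Subring L) {ι : Type} [Finite ι]
    (x : ι → L) (h : LinearIndependent L (fun i => KaehlerDifferential.D A L (x i))) :
    AlgebraicIndependent A x := by
  classical
  cases nonempty_fintype ι
  rw [algebraicIndependent_iff]
  intro p hp
  refine aux A x h (p.support.sup (fun m => ∑ i, m i)) p ?_ hp
  intro m hm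
  exact Finset.le_sup (f := fun m : ι →₀ ℕ => ∑ i, m i) (mem_support_iff.2 hm)

end Pool.Agent.H90KD
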